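import Pool.Agent.H977.CC.AsD

/-! # Sharp asymptotics of the clique chromatic number of `G(n,p)` for intermediate `p`

For `n^(-1/3+ε) ≪ p ≪ n^(-ε)`, with high probability `χ_c(G(n,p)) = (1+o(1)) f(n,p)` where
`f(n,p) = (1/p) sup_{j ≥ 3} (log n - (1 + j/2) log(1/p) - n p^j / (j-1))`. In particular, for
`p = n^(-x+o(1))` with `1/(r+1) < x < 1/r`, `r ≥ 3`, the leading constant is
`f(n,p) / (log n / p) → 1 - (r+3) x / 2`.

All notions of the statement are defined in this file. -/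

open Filter Topology

namespace Pool.Agent.Results.MP_b09bc5_pr.SharpAsymptotics

/-- A clique colouring: no inclusion-maximal clique with at least two vertices is
monochromatic. -/
def IsCliqueColouring {V : Type*} (G : SimpleGraph V) {k : ℕ} (c : V → Fin k) : Prop :=
  ∀ s : Set V, Maximal (fun t : Set V => G.IsClique t) s → s.Nontrivial →
    ¬ ∃ i, ∀ v ∈ s, c v = i

/-- The clique chromatic number `χ_c(G)`. -/
noncomputable def cliqueChromaticNumber {V : Type*} (G : SimpleGraph V) : ℕ :=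
  sInf {k | ∃ c : V → Fin k, IsCliqueColouring G c}

/-- The `j`-th term `log n - (1 + j/2) log(1/p) - n p^j / (j-1)`. -/
noncomputable def term (n : ℕ) (p : ℝ) (j : ℕ) : ℝ :=
  Real.log n - (1 + j / 2) * Real.log (1 / p) - n * p ^ j / (j - 1)

/-- `f(n,p) = (1/p) sup_{j ≥ 3} (log n - (1 + j/2) log(1/p) - n p^j / (j-1))`. -/
noncomputable def f (n : ℕ) (p : ℝ) : ℝ := (⨆ i : ℕ, term n p (i + 3)) / p

/-- Let `n^(-1/3+ε) ≪ p ≪ n^(-ε)`. Then w.h.p. `χ_c(G(n,p)) = (1+o(1)) f(n,p)`. Moreover, if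
`log(1/p) / log n → x` with `1/(r+1) < x < 1/r` and `r ≥ 3`, then
`f(n,p) / (log n / p) → 1 - (r+3) x / 2`. -/
theorem result (ε : ℝ) (hε : 0 < ε) (p : ℕ → unitInterval)
    (h1 : Tendsto (fun n : ℕ => (p n : ℝ) / (n : ℝ) ^ (-(1 / 3) + ε)) atTop atTop)
    (h2 : Tendsto (fun n : ℕ => (p n : ℝ) / (n : ℝ) ^ (-ε)) atTop (𝓝 0)) :
    (∀ η : ℝ, 0 < η → Tendsto (fun n : ℕ => (SimpleGraph.binomialRandom (Fin n) (p n))
      {G : SimpleGraph (Fin n) |
        |(cliqueChromaticNumber G : ℝ) - f n (p n)| ≤ η * f n (p n)}) atTop (𝓝 1)) ∧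
    (∀ (r : ℕ) (x : ℝ), 3 ≤ r → 1 / ((r : ℝ) + 1) < x → x < 1 / r →
      Tendsto (fun n : ℕ => Real.log (1 / (p n : ℝ)) / Real.log n) atTop (𝓝 x) →
      Tendsto (fun n : ℕ => f n (p n) / (Real.log n / (p n : ℝ))) atTop
        (𝓝 (1 - (r + 3) * x / 2))) := by
  have hterm : ∀ (n : ℕ) (q : ℝ) (j : ℕ), term n q j = Pool.Agent.H977.CC.TT j n q := by
    intro n q j
    unfold term Pool.Agent.H977.CC.TT
    rw [one_div, Real.log_inv]
  have hf : ∀ (n : ℕ) (q : ℝ), f n q = Pool.Agent.H977.CC.FF n q / q := by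
    intro n q
    unfold f Pool.Agent.H977.CC.FF
    simp only [hterm]
  constructor
  · intro η hη
    have h := Pool.Agent.H977.CC.main1 hε h1 h2 hη
    refine h.congr fun n => ?_
    congr 1
    ext G
    rw [Set.mem_ofPred_eq, Set.mem_ofPred_eq, hf]
    rfl
  · intro r x hr hx1 hx2 hlim
    have hp : ∀ᶠ n : ℕ in atTop, (0 : ℝ) < p n := by
      filter_upwards [Pool.Agent.H977.CC.range_log h1 h2] with n h
      exact h.1
    have h := Pool.Agent.H977.CC.main1_const hr hx1 hx2 hp (by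
      refine hlim.congr fun n => ?_
      rw [one_div, Real.log_inv])
    refine h.congr' ?_
    filter_upwards [hp] with n hn
    rw [hf]
    field_simp

end Pool.Agent.Results.MP_b09bc5_pr.SharpAsymptotics
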